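import Pool.Agent.H577.FD.Stm

/-!
Project FD (helper577), task LAM: the choice of the integer weights (helper355).
-/

set_option autoImplicit false

namespace Pool.Agent.H355.FD577

open Filter Finset Polynomial
open Pool.Agent.H577.FD

theorem mono_ev (f : ℕ → ℕ) : ∀ᶠ k₁ in (hyperfilter ℕ : Filter ℕ),
    ∀ᶠ k₂ in (hyperfilter ℕ : Filter ℕ), f k₁ ≤ f k₂ := by
  by_contra h
  have h1 : ∀ᶠ k₁ in (hyperfilter ℕ : Filter ℕ),
      ¬ ∀ᶠ k₂ in (hyperfilter ℕ : Filter ℕ), f k₁ ≤ f k₂ := Ultrafilter.eventually_not.2 h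
  have h2 : ∀ᶠ k₁ in (hyperfilter ℕ : Filter ℕ),
      ∀ᶠ k₂ in (hyperfilter ℕ : Filter ℕ), f k₂ < f k₁ := by
    filter_upwards [h1] with k hk
    have := Ultrafilter.eventually_not.2 hk
    filter_upwards [this] with k' hk' using not_le.1 hk'
  have key : ∀ n : ℕ, ∀ k, f k = n →
      (∀ᶠ k₂ in (hyperfilter ℕ : Filter ℕ), f k₂ < f k) → False := by
    intro n
    induction n using Nat.strong_induction_on with
    | _ n ih =>
      intro k hk hk2
      obtain ⟨k', h3, h4⟩ := (hk2.and h2).exists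
      exact ih (f k') (hk ▸ h3) k' rfl h4
  obtain ⟨k, hk⟩ := h2.exists
  exact key _ k rfl hk

section

variable {σ : Type} [Fintype σ]

/-- the natural number behind `mon` -/
def MM (u : ℕ → σ → ℕ) (m : σ →₀ ℕ) (k : ℕ) : ℕ := ∏ j, u k j ^ m j

theorem mon_eq (u : ℕ → σ → ℕ) (m : σ →₀ ℕ) (k : ℕ) : mon u m k = (MM u m k : ℚ) := by
  unfold mon MM; push_cast; rfl

theorem MM_pos {u : ℕ → σ → ℕ} (hu : ∀ k j, 0 < u k j) (m : σ →₀ ℕ) (k : ℕ) : 0 < MM u m k :=
  Finset.prod_pos fun j _ => pow_pos (hu k j) _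

theorem MM_fac {u : ℕ → σ → ℕ} (hu : ∀ k j, 0 < u k j) (m : σ →₀ ℕ) (k p : ℕ) :
    (MM u m k).factorization p = ∑ j, m j * (u k j).factorization p := by
  unfold MM
  rw [Nat.factorization_prod fun j _ => (pow_pos (hu k j) _).ne', Finsupp.finsetSum_apply]
  refine Finset.sum_congr rfl fun j _ => ?_
  rw [Nat.factorization_pow]
  simp

/-- separation of finitely many vectors by powers of one number -/
theorem sep {ι : Type*} (S : Finset ℕ) (F : Finset ι) (L : ℕ → ι → ℕ) :
    ∃ x : ℕ, ∀ m ∈ F, ∀ m' ∈ F, (∑ p ∈ S, L p m * x ^ p = ∑ p ∈ S, L p m' * x ^ p ↔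
      ∀ p ∈ S, L p m = L p m') := by
  classical
  -- the polynomials
  let P : ι → ι → ℤ[X] := fun m m' => ∑ p ∈ S, C ((L p m : ℤ) - L p m') * X ^ p
  have hcoef : ∀ m m' p, p ∈ S → (P m m').coeff p = (L p m : ℤ) - L p m' := by
    intro m m' p hp
    simp only [P, finsetSum_coeff, coeff_C_mul, coeff_X_pow]
    rw [Finset.sum_eq_single p]
    · simp
    · intro q _ hq
      rw [if_neg (Ne.symm hq), mul_zero]
    · intro h; exact absurd hp h
  have hev : ∀ m m' (x : ℕ), (P m m').eval (x : ℤ) =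
      ((∑ p ∈ S, L p m * x ^ p : ℕ) : ℤ) - ((∑ p ∈ S, L p m' * x ^ p : ℕ) : ℤ) := by
    intro m m' x
    simp only [P, eval_finsetSum, eval_mul, eval_C, eval_pow, eval_X]
    push_cast
    rw [← Finset.sum_sub_distrib]
    exact Finset.sum_congr rfl fun p _ => by ring
  have hfin : (⋃ q ∈ ((F ×ˢ F : Finset (ι × ι)) : Set (ι × ι)),
      {x : ℕ | P q.1 q.2 ≠ 0 ∧ (P q.1 q.2).eval (x : ℤ) = 0}).Finite := by
    refine Set.Finite.biUnion (Finset.finite_toSet _) fun q _ => ?_
    by_cases h0 : P q.1 q.2 = 0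
    · simp [h0]
    · have h1 : ((P q.1 q.2).roots.toFinset : Set ℤ).Finite := Finset.finite_toSet _
      refine (h1.preimage (f := fun n : ℕ => (n : ℤ)) (Nat.cast_injective.injOn)).subset ?_
      intro x hx
      simp only [Set.mem_preimage, SetLike.mem_coe, Multiset.mem_toFinset]
      rw [mem_roots h0]
      exact hx.2
  obtain ⟨x, hx⟩ := hfin.exists_notMem
  refine ⟨x, fun m hm m' hm' => ⟨fun h => ?_, fun h => Finset.sum_congr rfl fun p hp => by
    rw [h p hp]⟩⟩
  have h1 : P m m' = 0 := by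
    by_contra h0
    apply hx
    simp only [Set.mem_iUnion]
    refine ⟨(m, m'), Finset.mem_coe.2 (Finset.mem_product.2 ⟨hm, hm'⟩), h0, ?_⟩
    rw [hev, h, sub_self]
  intro p hp
  have h2 := hcoef m m' p hp
  rw [h1, coeff_zero] at h2
  have h3 : (L p m : ℤ) = L p m' := by linarith
  exact_mod_cast h3

end

theorem lam : S_LAM := by
  classical
  intro S σ _ u hu F
  have hpos : ∀ k j, 0 < u k j := fun k j => (hu k j).1
  have hfac0 : ∀ k j p, p ∉ S → (u k j).factorization p = 0 := by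
    intro k j p hp
    by_cases hpp : p.Prime
    · exact Nat.factorization_eq_zero_of_not_dvd fun h => hp ((hu k j).2 p hpp h)
    · exact Nat.factorization_eq_zero_of_not_prime _ hpp
  -- the first index
  have a1 : ∀ᶠ k₁ in (hyperfilter ℕ : Filter ℕ), ∀ j : σ, ∀ p ∈ S,
      ∀ᶠ k₂ in (hyperfilter ℕ : Filter ℕ),
        (u k₁ j).factorization p ≤ (u k₂ j).factorization p := by
    rw [Filter.eventually_all]
    intro j
    rw [Filter.eventually_all_finset]
    intro p _
    exact mono_ev fun k => (u k j).factorization p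
  have a2 : ∀ᶠ k in (hyperfilter ℕ : Filter ℕ), ∀ m ∈ F, ∀ m' ∈ F, ∀ h : Rel u m m',
      mon u m k = h.choose * mon u m' k := by
    rw [Filter.eventually_all_finset]
    intro m _
    rw [Filter.eventually_all_finset]
    intro m' _
    by_cases h : Rel u m m'
    · filter_upwards [h.choose_spec] with k hk _ using hk
    · exact Filter.Eventually.of_forall fun k h' => absurd h' h
  obtain ⟨k₁, b1, b2⟩ := (a1.and a2).exists
  -- the second index
  have a3 : ∀ᶠ k₂ in (hyperfilter ℕ : Filter ℕ), ∀ j : σ, ∀ p ∈ S,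
      (u k₁ j).factorization p ≤ (u k₂ j).factorization p := by
    rw [Filter.eventually_all]
    intro j
    rw [Filter.eventually_all_finset]
    intro p hp
    exact b1 j p hp
  have a4 : ∀ᶠ k₂ in (hyperfilter ℕ : Filter ℕ), ∀ m ∈ F, ∀ m' ∈ F, ¬ Rel u m m' →
      mon u m k₂ ≠ (mon u m k₁ / mon u m' k₁) * mon u m' k₂ := by
    rw [Filter.eventually_all_finset]
    intro m _
    rw [Filter.eventually_all_finset]
    intro m' _
    by_cases h : Rel u m m'
    · exact Filter.Eventually.of_forall fun k h' => absurd h h'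
    · have h1 : ¬ ∀ᶠ k in (hyperfilter ℕ : Filter ℕ),
          mon u m k = (mon u m k₁ / mon u m' k₁) * mon u m' k := fun h2 => h ⟨_, h2⟩
      filter_upwards [Ultrafilter.eventually_not.2 h1] with k hk _ using hk
  obtain ⟨k₂, ⟨b3, b4⟩, b5⟩ := ((a3.and a4).and a2).exists
  -- the exponents
  let lp : ℕ → σ → ℕ := fun p j => (u k₂ j).factorization p - (u k₁ j).factorization p
  let Lp : ℕ → (σ →₀ ℕ) → ℕ := fun p m => ∑ j, m j * lp p j
  have c1 : ∀ p ∈ S, ∀ m, (MM u m k₂).factorization p = (MM u m k₁).factorization p + Lp p m := by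
    intro p hp m
    rw [MM_fac hpos, MM_fac hpos, ← Finset.sum_add_distrib]
    refine Finset.sum_congr rfl fun j _ => ?_
    have := b3 j p hp
    simp only [lp]
    rw [← mul_add]
    congr 1
    omega
  have c0 : ∀ p, p ∉ S → ∀ k m, (MM u m k).factorization p = 0 := by
    intro p hp k m
    rw [MM_fac hpos]
    exact Finset.sum_eq_zero fun j _ => by rw [hfac0 k j p hp, mul_zero]
  have hq : ∀ m k, (MM u m k : ℚ) ≠ 0 := fun m k => by
    exact_mod_cast (MM_pos hpos m k).ne'
  have c2 : ∀ m ∈ F, ∀ m' ∈ F, (Rel u m m' ↔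
      MM u m k₂ * MM u m' k₁ = MM u m' k₂ * MM u m k₁) := by
    intro m hm m' hm'
    constructor
    · intro h
      have d1 := b2 m hm m' hm' h
      have d2 := b5 m hm m' hm' h
      rw [mon_eq, mon_eq] at d1 d2
      have : ((MM u m k₂ * MM u m' k₁ : ℕ) : ℚ) = ((MM u m' k₂ * MM u m k₁ : ℕ) : ℚ) := by
        push_cast
        rw [d1, d2]; ring
      exact_mod_cast this
    · intro h
      by_contra hr
      apply b4 m hm m' hm' hr
      rw [mon_eq, mon_eq, mon_eq, mon_eq]
      have h1 : ((MM u m k₂ * MM u m' k₁ : ℕ) : ℚ) = ((MM u m' k₂ * MM u m k₁ : ℕ) : ℚ) := by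
        rw [h]
      push_cast at h1
      have := hq m' k₁
      field_simp
      linarith
  have c3 : ∀ m ∈ F, ∀ m' ∈ F, (Rel u m m' ↔ ∀ p ∈ S, Lp p m = Lp p m') := by
    intro m hm m' hm'
    rw [c2 m hm m' hm']
    have hf : ∀ p, (MM u m k₂ * MM u m' k₁).factorization p =
        (MM u m k₂).factorization p + (MM u m' k₁).factorization p := fun p => by
      rw [Nat.factorization_mul (MM_pos hpos _ _).ne' (MM_pos hpos _ _).ne']; rfl
    have hf' : ∀ p, (MM u m' k₂ * MM u m k₁).factorization p =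
        (MM u m' k₂).factorization p + (MM u m k₁).factorization p := fun p => by
      rw [Nat.factorization_mul (MM_pos hpos _ _).ne' (MM_pos hpos _ _).ne']; rfl
    constructor
    · intro h p hp
      have e := congrArg (fun n : ℕ => n.factorization p) h
      simp only [hf, hf'] at e
      rw [c1 p hp m, c1 p hp m'] at e
      omega
    · intro h
      refine Nat.eq_of_factorization_eq (Nat.mul_pos (MM_pos hpos _ _) (MM_pos hpos _ _)).ne'
        (Nat.mul_pos (MM_pos hpos _ _) (MM_pos hpos _ _)).ne' fun p => ?_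
      rw [hf, hf']
      by_cases hp : p ∈ S
      · rw [c1 p hp m, c1 p hp m', h p hp]; omega
      · rw [c0 p hp, c0 p hp, c0 p hp, c0 p hp]
  obtain ⟨x, hx⟩ := sep S F Lp
  refine ⟨fun j => ∑ p ∈ S, lp p j * x ^ p, fun m hm m' hm' => ?_⟩
  have hw : ∀ m : σ →₀ ℕ, wt (fun j => ∑ p ∈ S, lp p j * x ^ p) m = ∑ p ∈ S, Lp p m * x ^ p := by
    intro m
    unfold wt
    simp only [Lp, Finset.sum_mul]
    rw [Finset.sum_comm]
    refine Finset.sum_congr rfl fun p _ => Finset.sum_congr rfl fun j _ => by ring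
  rw [hw, hw, hx m hm m' hm', c3 m hm m' hm']

end Pool.Agent.H355.FD577
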